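import Pool.Agent.Run7.h16.LH.Ab

/-!
Homomorphisms of abelian groups with torsion kernel are injective on rational homology
-/

set_option linter.unusedSectionVars false
set_option linter.unusedVariables false

namespace Run7.h16.LH

open Finsupp Pool.Agent.Y483 Filter Run7.h16.NV Pool.Agent.R615.KU

noncomputable section

/-- A finitely generated abelian group maps to a finitely generated free one with finite kernel. -/
theorem exists_fin {A : Type} [CommGroup A] [Group.FG A] :
    ∃ (R : Type) (_ : CommGroup R) (r : A →* R) (E : Type) (c : R → (E →₀ ℤ)),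
      Function.Surjective r ∧ Finite r.ker ∧ (∀ g h, c (g * h) = c g + c h) ∧
        Function.Injective c := by
  let V := Additive A
  have : Module.Finite ℤ V := Module.Finite.iff_addGroup_fg.mpr inferInstance
  let W := V ⧸ Submodule.torsion ℤ V
  have h2 : Finite (Submodule.torsion ℤ V) := by
    refine Module.finite_of_fg_torsion (Submodule.torsion ℤ V) ?_
    exact Submodule.torsion_isTorsion
  have : Module.Free ℤ W := Module.free_of_finite_type_torsion_free'
  let b := Module.Free.chooseBasis ℤ W
  let r : A →* Multiplicative W :=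
    { toFun := fun a => Multiplicative.ofAdd ((Submodule.torsion ℤ V).mkQ (Additive.ofMul a))
      map_one' := rfl
      map_mul' := fun _ _ => rfl }
  refine ⟨Multiplicative W, inferInstance, r, Module.Free.ChooseBasisIndex ℤ W,
    fun w => b.repr w.toAdd, ?_, ?_, ?_, ?_⟩
  · intro w
    obtain ⟨v, hv⟩ := Submodule.mkQ_surjective (Submodule.torsion ℤ V) w.toAdd
    refine ⟨v.toMul, ?_⟩
    change Multiplicative.ofAdd ((Submodule.torsion ℤ V).mkQ v) = w
    rw [hv]
    rfl
  · refine Finite.of_injective (fun k : r.ker =>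
      (⟨Additive.ofMul (k : A), ?_⟩ : Submodule.torsion ℤ V)) ?_
    · have h := k.2
      rw [MonoidHom.mem_ker] at h
      have h' : (Submodule.torsion ℤ V).mkQ (Additive.ofMul (k : A)) = 0 := h
      rwa [Submodule.mkQ_apply, Submodule.Quotient.mk_eq_zero] at h'
    · intro k l h
      have h' := congrArg Subtype.val h
      exact Subtype.ext h'
  · intro g h
    change b.repr (g.toAdd + h.toAdd) = _
    rw [map_add]
  · intro g h hgh
    exact b.repr.injective hgh

/-- **Homomorphisms of abelian groups with torsion kernel** are injective on rational homology. -/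
theorem ab_inj {A B : Type} [CommGroup A] [CommGroup B] (f : A →* B)
    (hf : ∀ a, f a = 1 → IsOfFinOrder a) (j : ℕ) (x : HQ j A) (hx : hqMap f j x = 0) : x = 0 := by
  classical
  obtain ⟨X, x₀, hx₀⟩ := (hq_lift x).exists
  have hFG : Group.FG (Cl X) := Group.closure_finset_fg X
  obtain ⟨R, _, r, E, c, hr, hfin, hc, hci⟩ := exists_fin (A := Cl X)
  suffices h : hqMap r j x₀ = 0 by
    rw [← hx₀, fk_inj r hr j x₀ h, map_zero]
  obtain ⟨z₀, hz₀⟩ := exists_rpr (Rep.trivial ℚ (Cl X) ℚ) j x₀
  rw [(hz₀.hq r).eq_zero_iff]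
  apply detectW c hc hci j _ ((hz₀.hq r).cyc)
  intro v
  rw [ipair_mp]
  -- the extension of the coordinates
  have hc1 : c 1 = 0 := map_one_zero c hc
  have hext : ∀ l : Fin j, ∃ h : B →* Multiplicative ℚ, ∀ a : Cl X,
      h (f a) = Multiplicative.ofAdd ((c (r a) (v l) : ℤ) : ℚ) := by
    intro l
    let g : Cl X →* Multiplicative ℚ :=
      { toFun := fun a => Multiplicative.ofAdd ((c (r a) (v l) : ℤ) : ℚ)
        map_one' := by
          rw [map_one, hc1, Finsupp.zero_apply, Int.cast_zero]
          rfl
        map_mul' := fun a b => by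
          rw [map_mul, hc, Finsupp.add_apply, Int.cast_add]
          rfl }
    obtain ⟨h, hh⟩ := ext_Q (f.comp (Cl X).subtype) (fun a ha => by
      obtain ⟨n, hn, h1⟩ := isOfFinOrder_iff_pow_eq_one.mp (hf a ha)
      exact isOfFinOrder_iff_pow_eq_one.mpr ⟨n, hn, Subtype.ext h1⟩) g
    exact ⟨h, hh⟩
  choose h hh using hext
  let d : B → (Fin j → ℚ) := fun b l => (h l b).toAdd
  have hd : ∀ a b, d (a * b) = d a + d b := by
    intro a b
    funext l
    change (h l (a * b)).toAdd = (h l a).toAdd + (h l b).toAdd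
    rw [map_mul]
    rfl
  have hdf : ∀ a : Cl X, d (f a) = cQ v (c (r a)) := by
    intro a
    funext l
    change (h l (f a)).toAdd = _
    rw [hh]
    rfl
  have e : ipair (c ∘ r) j (LinearMap.id ∘ₗ LinearMap.id) (Wf j v) z₀ =
      ipair d j LinearMap.id (detF j) (mp j (f.comp (Cl X).subtype) LinearMap.id z₀) := by
    rw [ipair_mp]
    have e1 : ipair (c ∘ r) j (LinearMap.id ∘ₗ (LinearMap.id : ℚ →ₗ[ℚ] ℚ)) (Wf j v) =
        ipair (d ∘ (f.comp (Cl X).subtype)) j (LinearMap.id ∘ₗ LinearMap.id) (detF j) := by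
      apply T_ext
      intro y m
      rw [ipair_single, ipair_single, Wf_det]
      congr 2
      funext i
      exact (hdf (y i)).symm
    rw [e1]
  have e2 := hz₀.hq (f.comp (Cl X).subtype)
  rw [hqMap_comp, hx₀, hx] at e2
  obtain ⟨w, hw⟩ := e2.eq_zero_iff.mp rfl
  refine e.trans ?_
  rw [← hw]
  exact ipair_dd (ρ := trivR B ℚ) d hd LinearMap.id (fun _ _ => rfl) j (detF j) w

end

end Run7.h16.LH
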