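import Pool.Agent.Run7.h16.LH.Ind
import Pool.Agent.Run7.h16.LH.Ab2
import Pool.Agent.Run7.h16.NC.Main
import Pool.Agent.Run7.h16.NV.Closed

/-!
Extensions in the class of the detecting groups
-/

set_option linter.unusedSectionVars false
set_option linter.unusedVariables false

namespace Run7.h16.LH

open CategoryTheory Monoid Pool.Agent.Y483 Pool.Agent.Y75.MQ Pool.Agent.Y483.PW
  Pool.Agent.Y110.KW Pool.Agent.R615.KU Run7.h16.NV

open scoped commutatorElement

noncomputable section

variable {ε : ℤˣ}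

theorem detL_of_inj {G K : Type} [Group G] [Group K] (f : G →* K)
    (hf : ∀ (j : ℕ) (x : HQ j G), hqMap f j x = 0 → x = 0) (h : DetL ε K) : DetL ε G :=
  detL_iff.mpr ((detL_iff.mp h).of_inj f fun j x hx => hf j x hx)

theorem detL_detect {G : Type} [Group G]
    (h : ∀ (j : ℕ) (x : HQ j G), x ≠ 0 → ∃ (K : Type) (_ : Group K) (f : G →* K), DetL ε K ∧
      hqMap f j x ≠ 0) : DetL ε G :=
  (closed_detL ε).detection G h

theorem detL_prod {G K : Type} [Group G] [Group K] (h1 : DetL ε G) (h2 : DetL ε K) :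
    DetL ε (G × K) := (closed_detL ε).prod G K h1 h2

/-- **Extensions with detected kernel.** -/
theorem detL_ext {G : Type} [Group G] (K : Subgroup G) [K.Normal] (hQ : DetL ε (G ⧸ K))
    (h : ∀ (j : ℕ) (x : HQ j K), x ≠ 0 → ∃ (A : Type) (_ : Group A) (φ : G →* A), DetL ε A ∧
      hqMap (φ.comp K.subtype) j x ≠ 0) : DetL ε G := by
  apply detL_detect
  intro j x hx
  by_contra hcon
  push Not at hcon
  apply hx
  refine lh_hq (π := QuotientGroup.mk' K) (K := K) (P := fun A _ φ => DetL ε A)
    (QuotientGroup.mk'_surjective K) (fun g => (QuotientGroup.eq_one_iff g).symm) ?_ j x ?_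
  · intro q y hy
    by_contra hy0
    obtain ⟨A, iA, φ, hA, h1⟩ := h q y hy0
    exact h1 (hy A φ hA)
  · intro A _ φ hA
    exact hcon (A × (G ⧸ K)) inferInstance (φ.prod (QuotientGroup.mk' K)) (detL_prod hA hQ)

/-- A finitely generated abelian group maps to some `ℤ^n` with torsion kernel. -/
theorem exists_zn {A : Type} [CommGroup A] [Group.FG A] :
    ∃ (n : ℕ) (f : A →* Zn n), ∀ a, f a = 1 → IsOfFinOrder a := by
  let V := Additive A
  have : Module.Finite ℤ V := Module.Finite.iff_addGroup_fg.mpr inferInstance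
  let W := V ⧸ Submodule.torsion ℤ V
  have : Module.Free ℤ W := Module.free_of_finite_type_torsion_free'
  let b := Module.finBasis ℤ W
  refine ⟨Module.finrank ℤ W,
    { toFun := fun a => Multiplicative.ofAdd
        (b.equivFun ((Submodule.torsion ℤ V).mkQ (Additive.ofMul a)))
      map_one' := by
        change Multiplicative.ofAdd (b.equivFun ((Submodule.torsion ℤ V).mkQ 0)) = 1
        rw [map_zero, map_zero]
        rfl
      map_mul' := fun x y => by
        change Multiplicative.ofAdd (b.equivFun ((Submodule.torsion ℤ V).mkQ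
          (Additive.ofMul x + Additive.ofMul y))) = _
        rw [map_add, map_add]
        rfl }, fun a ha => ?_⟩
  have h1 : b.equivFun ((Submodule.torsion ℤ V).mkQ (Additive.ofMul a)) = 0 := ha
  have h2 : (Submodule.torsion ℤ V).mkQ (Additive.ofMul a) = 0 := by
    apply b.equivFun.injective
    rw [h1, map_zero]
  rw [Submodule.mkQ_apply, Submodule.Quotient.mk_eq_zero, Submodule.mem_torsion_iff] at h2
  obtain ⟨c, hc⟩ := h2
  have hc0 : (c : ℤ) ≠ 0 := nonZeroDivisors.ne_zero c.2
  have h3 : a ^ (c : ℤ) = 1 := hc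
  exact isOfFinOrder_iff_zpow_eq_one.mpr ⟨c, hc0, h3⟩

/-- Abelian groups are in the class. -/
theorem detL_comm (A : Type) [CommGroup A] : DetL ε A := by
  apply (closed_detL ε).localMem
  intro X
  have hFG : Group.FG (Subgroup.closure (X : Set A)) := Group.closure_finset_fg X
  refine ⟨Subgroup.closure (X : Set A), Subgroup.subset_closure, ?_⟩
  obtain ⟨n, f, hf⟩ := exists_zn (A := Subgroup.closure (X : Set A))
  exact detL_of_inj f (fun j x hx => ab_inj f hf j x hx) (detL_iff.mpr (Det.zn n))

/-- **Kernels detected by the abelianization of the group.** -/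
theorem detL_ab {G : Type} [Group G] (K : Subgroup G) [K.Normal] (hQ : DetL ε (G ⧸ K))
    (h1 : ∀ (j : ℕ) (x : HQ j K), x ≠ 0 →
      hqMap (Abelianization.of : K →* Abelianization K) j x ≠ 0)
    (h2 : ∀ g ∈ K, g ∈ commutator G → ∃ n : ℕ, 0 < n ∧ g ^ n ∈ (⁅K, K⁆ : Subgroup G)) :
    DetL ε G := by
  apply detL_ext K hQ
  intro j x hx
  refine ⟨Abelianization G, inferInstance, Abelianization.of, detL_comm _, fun h => h1 j x hx ?_⟩
  let f : Abelianization K →* Abelianization G :=
    Abelianization.lift (Abelianization.of.comp K.subtype)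
  have hf : f.comp Abelianization.of = Abelianization.of.comp K.subtype := by
    ext k
    exact Abelianization.lift_apply_of _ _
  rw [← hf, hqMap_comp] at h
  refine ab_inj f ?_ j _ h
  intro a ha
  obtain ⟨k, rfl⟩ := QuotientGroup.mk'_surjective (commutator K) a
  have e1 : f (QuotientGroup.mk' (commutator K) k) = Abelianization.of (k : G) :=
    DFunLike.congr_fun hf k
  rw [e1] at ha
  have h3 : (k : G) ∈ commutator G := (QuotientGroup.eq_one_iff _).mp ha
  obtain ⟨n, hn, h4⟩ := h2 k k.2 h3
  refine isOfFinOrder_iff_pow_eq_one.mpr ⟨n, hn, ?_⟩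
  change (Abelianization.of k) ^ n = 1
  rw [← map_pow]
  refine (QuotientGroup.eq_one_iff _).mpr ?_
  have h5 : (commutator K).map K.subtype = ⁅K, K⁆ := Subgroup.map_subtype_commutator K
  rw [← h5] at h4
  obtain ⟨y, hy, hy'⟩ := h4
  have h6 : y = k ^ n := Subtype.ext hy'
  rw [← h6]
  exact hy

/-- **Commutator quotients.** -/
theorem detL_quot {G S : Type} [Group G] [Group S] (K : Subgroup G) [K.Normal] (f : G →* S)
    (hf : Function.Surjective f)
    (hk : ∀ g, f g = 1 → g ∈ K ∧ ∃ n : ℕ, 0 < n ∧ g ^ n ∈ (⁅K, K⁆ : Subgroup G))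
    (hK : ∀ q, 2 ≤ q → ∀ x : HQ q K, x = 0) (h : DetL ε S) : DetL ε G :=
  detL_of_inj f (fun j x hx => Run7.h16.NC.hq_inj hf hk hK j x hx) h

/-- One-dimensional groups are detected by their abelianizations. -/
theorem one_dim {K : Type} [Group K] (hK : ∀ q, 2 ≤ q → ∀ x : HQ q K, x = 0) (j : ℕ)
    (x : HQ j K) (hx : hqMap (Abelianization.of : K →* Abelianization K) j x = 0) : x = 0 := by
  have htop : ∀ q, 2 ≤ q → ∀ y : HQ q (⊤ : Subgroup K), y = 0 := by
    intro q hq y
    have h1 := hK q hq (hqMap (⊤ : Subgroup K).subtype q y)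
    have h2 : hqMap (Subgroup.topEquiv.symm : K ≃* (⊤ : Subgroup K)).toMonoidHom q
        (hqMap (⊤ : Subgroup K).subtype q y) = y := by
      rw [← hqMap_comp]
      exact hqMap_id _ q y
    rw [← h2, h1, map_zero]
  refine Run7.h16.NC.hq_inj (K := (⊤ : Subgroup K)) (f := Abelianization.of)
    (QuotientGroup.mk'_surjective _) (fun g hg => ⟨Subgroup.mem_top g, 1, one_pos, ?_⟩) htop j x hx
  rw [pow_one]
  exact (QuotientGroup.eq_one_iff _).mp hg

end

end Run7.h16.LH
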