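import Pool.Agent.Run7.h16.NV.Def

/-!
Closure properties of a class of groups: extensions with kernels detected by homomorphisms.
-/

namespace Run7.h16.LH

open CategoryTheory Pool.Agent.Y483 Pool.Agent.Y75.MQ

/-- The rational homology of the subgroup `K` of `G` is detected by homomorphisms from `G` to groups
in the class `C`: for each nonzero `x` in `H_j(K; ℚ)` there is a homomorphism `φ` from `G` to a
group in `C` with `φ_*(x) ≠ 0`. -/
def Detected (C : ∀ (G : Type) [Group G], Prop) {G : Type} [Group G] (K : Subgroup G) : Prop :=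
  ∀ (j : ℕ) (x : (hq j).obj (GrpCat.of K)), x ≠ 0 →
    ∃ (A : Type) (_ : Group A) (φ : G →* A), C A ∧
      ((hq j).map (GrpCat.ofHom (φ.comp K.subtype))).hom x ≠ 0

/-- The homomorphism `f` is injective on rational homology. -/
def HInj {G K : Type} [Group G] [Group K] (f : G →* K) : Prop :=
  ∀ (j : ℕ) (x : (hq j).obj (GrpCat.of G)), x ≠ 0 → ((hq j).map (GrpCat.ofHom f)).hom x ≠ 0

/-- The rational homology of the group vanishes in all degrees above one. -/
def LowDim (K : Type) [Group K] : Prop :=
  ∀ q : ℕ, 2 ≤ q → ∀ x : (hq q).obj (GrpCat.of K), x = 0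

/-- Each element of `K` that is in the commutator subgroup of `G` has a positive power in the
commutator subgroup of `K`; in other words, `K^{ab} ⊗ ℚ → G^{ab} ⊗ ℚ` is injective. -/
def AbInj {G : Type} [Group G] (K : Subgroup G) : Prop :=
  ∀ g ∈ K, g ∈ commutator G → ∃ n : ℕ, 0 < n ∧ g ^ n ∈ (⁅K, K⁆ : Subgroup G)

/-- Closure properties of the class `C` for extensions. -/
structure ExtClosed (C : ∀ (G : Type) [Group G], Prop) : Prop where
  /-- Let `H` be a subgroup of finite index in `G`, and `K` a normal subgroup of `H` with `H / K` in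
  the class. If the rational homology of `K` is detected by homomorphisms from `H` to groups in the
  class, then `G` is in the class. -/
  detected : ∀ (G : Type) [Group G] (H : Subgroup G) [H.FiniteIndex] (K : Subgroup H) [K.Normal],
    C (H ⧸ K) → Detected C K → C G
  /-- The same, if `H_j(K; ℚ) → H_j(K^{ab}; ℚ)` is injective for all `j` and
  `K^{ab} ⊗ ℚ → H^{ab} ⊗ ℚ` is injective. -/
  abelian : ∀ (G : Type) [Group G] (H : Subgroup G) [H.FiniteIndex] (K : Subgroup H) [K.Normal],
    C (H ⧸ K) → HInj (Abelianization.of : K →* Abelianization K) → AbInj K → C G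
  /-- The same, if the rational homology of `K` vanishes above degree one and
  `K^{ab} ⊗ ℚ → H^{ab} ⊗ ℚ` is injective. -/
  lowDim : ∀ (G : Type) [Group G] (H : Subgroup G) [H.FiniteIndex] (K : Subgroup H) [K.Normal],
    C (H ⧸ K) → LowDim K → AbInj K → C G

end Run7.h16.LH
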