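import Pool.Agent.Run7.h16.NV.Loc

/-!
Homomorphisms of abelian groups with torsion kernel are injective on rational homology
-/

set_option linter.unusedSectionVars false
set_option linter.unusedVariables false

namespace Run7.h16.LH

open Finsupp Pool.Agent.Y483 Filter

noncomputable section

/-- Extension of homomorphisms to `ℚ`. -/
theorem ext_Q {A B : Type} [CommGroup A] [CommGroup B] (f : A →* B)
    (hf : ∀ a, f a = 1 → IsOfFinOrder a) (g : A →* Multiplicative ℚ) :
    ∃ h : B →* Multiplicative ℚ, ∀ a, h (f a) = g a := by
  have hg : ∀ a ∈ f.ker, g a = 1 := by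
    intro a ha
    obtain ⟨n, hn, h⟩ := (isOfFinOrder_iff_pow_eq_one).mp (hf a ha)
    have h1 : g a ^ n = 1 := by rw [← map_pow, h, map_one]
    have h2 : n • (g a).toAdd = 0 := h1
    have h3 : (g a).toAdd = 0 := by
      rcases smul_eq_zero.mp h2 with h4 | h4
      · omega
      · exact h4
    exact h3
  let f' : Additive (A ⧸ f.ker) →+ Additive B := MonoidHom.toAdditive (QuotientGroup.kerLift f)
  have hf' : Function.Injective f' := QuotientGroup.kerLift_injective f
  let g0 : (A ⧸ f.ker) →* Multiplicative ℚ := QuotientGroup.lift f.ker g hg
  let g' : Additive (A ⧸ f.ker) →+ ℚ :=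
    { toFun := fun a => (g0 a.toMul).toAdd
      map_zero' := by
        change (g0 1).toAdd = 0
        rw [map_one]
        rfl
      map_add' := fun a b => by
        change (g0 (a.toMul * b.toMul)).toAdd = _
        rw [map_mul]
        rfl }
  obtain ⟨h, hh⟩ := (Module.Baer.of_divisible ℚ).extension_property_addMonoidHom f' hf' g'
  refine ⟨{ toFun := fun b => Multiplicative.ofAdd (h (Additive.ofMul b))
            map_one' := by
              change Multiplicative.ofAdd (h 0) = 1
              rw [map_zero]
              rfl
            map_mul' := fun a b => by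
              change Multiplicative.ofAdd (h (Additive.ofMul a + Additive.ofMul b)) = _
              rw [map_add]
              rfl }, fun a => ?_⟩
  have h1 := DFunLike.congr_fun hh (Additive.ofMul (a : A ⧸ f.ker))
  have h2 : h (Additive.ofMul (f a)) = (g a).toAdd := h1
  change Multiplicative.ofAdd (h (Additive.ofMul (f a))) = g a
  rw [h2]
  rfl

/-- The determinant form. -/
def detF (j : ℕ) : Frm (Fin j → ℚ) j where
  toFun x := Matrix.det (Matrix.of x)
  map_update_add' x i a b := by
    rename_i inst
    have e : inst = instDecidableEqFin j := Subsingleton.elim _ _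
    subst e
    exact Matrix.det_updateRow_add (Matrix.of x) i a b
  map_update_smul' x i c a := by
    rename_i inst
    have e : inst = instDecidableEqFin j := Subsingleton.elim _ _
    subst e
    have h := Matrix.det_updateRow_smul (Matrix.of x) i (c : ℚ) a
    have h1 : (c : ℚ) • a = c • a := Int.cast_smul_eq_zsmul ℚ c a
    rw [h1] at h
    rw [zsmul_eq_mul]
    exact h
  map_eq_zero_of_eq' x a b h hab := Matrix.det_zero_of_row_eq hab h

/-- The coordinates of a vector, as rational numbers. -/
def cQ {E : Type*} {j : ℕ} (v : Fin j → E) (x : E →₀ ℤ) : Fin j → ℚ := fun l => (x (v l) : ℚ)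

/-- The pullback of the determinant form. -/
def detZ (j : ℕ) : Frm (Fin j →₀ ℤ) j where
  toFun x := detF j (fun i => cQ id (x i))
  map_update_add' x i a b := by
    have h : ∀ c, (fun k => cQ id (Function.update x i c k)) =
        Function.update (fun k => cQ id (x k)) i (cQ id c) := by
      intro c
      funext k
      by_cases hk : k = i
      · subst hk
        rw [Function.update_self, Function.update_self]
      · rw [Function.update_of_ne hk, Function.update_of_ne hk]
    have h2 : (cQ id (a + b) : Fin j → ℚ) = cQ id a + cQ id b := by
      funext l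
      simp [cQ]
    rw [h, h, h, h2, AlternatingMap.map_update_add]
  map_update_smul' x i c a := by
    have h : ∀ c, (fun k => cQ id (Function.update x i c k)) =
        Function.update (fun k => cQ id (x k)) i (cQ id c) := by
      intro c
      funext k
      by_cases hk : k = i
      · subst hk
        rw [Function.update_self, Function.update_self]
      · rw [Function.update_of_ne hk, Function.update_of_ne hk]
    have h2 : (cQ id (c • a) : Fin j → ℚ) = c • cQ id a := by
      funext l
      simp [cQ]
    rw [h, h, h2, AlternatingMap.map_update_smul]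
  map_eq_zero_of_eq' x a b h hab := by
    refine AlternatingMap.map_eq_zero_of_eq (detF j) _ ?_ hab
    rw [h]

theorem Wf_det {E : Type*} (j : ℕ) (v : Fin j → E) (x : Fin j → (E →₀ ℤ)) :
    Wf j v x = detF j (fun i => cQ v (x i)) := by
  have h1 : Wf j id = detZ j := by
    have h := top_form j (Wf j id) (detZ j)
    rw [Wf_std, one_smul] at h
    have h2 : detZ j (fun i => single i 1) = 1 := by
      change Matrix.det (Matrix.of fun i => cQ id (single i (1 : ℤ))) = 1
      have h3 : (Matrix.of fun i => cQ id (single i (1 : ℤ))) = (1 : Matrix (Fin j) (Fin j) ℚ) := by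
        ext i l
        rw [Matrix.of_apply, Matrix.one_apply]
        change ((single i (1 : ℤ) l : ℤ) : ℚ) = _
        rw [Finsupp.single_apply]
        split_ifs <;> simp
      rw [h3, Matrix.det_one]
    rw [h2, one_smul] at h
    exact h
  have h2 := Wf_congr j v id x (fun i => Finsupp.equivFunOnFinite.symm fun l => x i (v l))
    (fun i l => rfl)
  rw [h2, h1]
  rfl

end

end Run7.h16.LH
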