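import Pool.Agent.Run7.h16.LH.Shap

/-!
Cycles of a normal subgroup with coefficients in a module of the quotient
-/

set_option linter.unusedSectionVars false
set_option linter.unusedVariables false

namespace Run7.h16.LH

open Finsupp Pool.Agent.Y483

noncomputable section

/-- The map `ℚ → M` with value `m` at one. -/
def ts {M : Type*} [AddCommGroup M] [Module ℚ M] (m : M) : ℚ →ₗ[ℚ] M :=
  LinearMap.toSpanSingleton ℚ M m

theorem ts_apply {M : Type*} [AddCommGroup M] [Module ℚ M] (m : M) (r : ℚ) : ts m r = r • m := rfl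

theorem ts_sub {M : Type*} [AddCommGroup M] [Module ℚ M] (m m' : M) :
    ts (m - m') = ts m - ts m' := by
  apply LinearMap.ext
  intro r
  rw [LinearMap.sub_apply, ts_apply, ts_apply, ts_apply, smul_sub]

theorem ts_add {M : Type*} [AddCommGroup M] [Module ℚ M] (m m' : M) :
    ts (m + m') = ts m + ts m' := by
  apply LinearMap.ext
  intro r
  rw [LinearMap.add_apply, ts_apply, ts_apply, ts_apply, smul_add]

theorem ts_smul {M : Type*} [AddCommGroup M] [Module ℚ M] (c : ℚ) (m : M) :
    ts (c • m) = c • ts m := by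
  apply LinearMap.ext
  intro r
  rw [LinearMap.smul_apply, ts_apply, ts_apply, smul_comm]

theorem ts_zero {M : Type*} [AddCommGroup M] [Module ℚ M] : ts (0 : M) = 0 := by
  apply LinearMap.ext
  intro r
  rw [ts_apply, smul_zero, LinearMap.zero_apply]

/-- Coordinates of the coefficients. -/
theorem decomp {n : ℕ} {X M N ι : Type*} [AddCommGroup M] [Module ℚ M] [AddCommGroup N]
    [Module ℚ N] (e : Module.Basis ι ℚ M) (θ : M →ₗ[ℚ] N) (y : T n X M) :
    ∃ F : Finset ι, mp n id θ y = ∑ i ∈ F, mp n id (ts (θ (e i))) (mp n id (e.coord i) y) := by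
  classical
  refine ⟨y.support.biUnion fun x => (e.repr (y x)).support, ?_⟩
  set F := y.support.biUnion fun x => (e.repr (y x)).support with hF
  have h1 : ∀ x ∈ y.support, ∀ m, m = y x →
      ∑ i ∈ F, e.coord i m • θ (e i) = θ m := by
    intro x hx m hm
    have h2 : θ m = ∑ i ∈ (e.repr m).support, e.coord i m • θ (e i) := by
      conv_lhs => rw [← e.linearCombination_repr m, Finsupp.linearCombination_apply,
        Finsupp.sum, map_sum]
      apply Finset.sum_congr rfl
      intro i _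
      rw [map_smul]
      rfl
    rw [h2]
    symm
    apply Finset.sum_subset
    · intro i hi
      rw [hF, Finset.mem_biUnion]
      exact ⟨x, hx, by rw [← hm]; exact hi⟩
    · intro i _ hi
      have h3 : e.coord i m = 0 := by
        rw [Finsupp.mem_support_iff, not_not] at hi
        exact hi
      rw [h3, zero_smul]
  have hy : y = ∑ x ∈ y.support, single x (y x) := (Finsupp.sum_single y).symm
  have h4 : ∀ {N' : Type _} [AddCommGroup N'] [Module ℚ N'] (χ : M →ₗ[ℚ] N'),
      mp n (id : X → X) χ y = ∑ x ∈ y.support, single x (χ (y x)) := by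
    intro N' _ _ χ
    conv_lhs => rw [hy, map_sum]
    apply Finset.sum_congr rfl
    intro x _
    rw [mp_single]
    rfl
  have h5 : ∀ i, mp n (id : X → X) (ts (θ (e i))) (mp n id (e.coord i) y) =
      ∑ x ∈ y.support, single x (e.coord i (y x) • θ (e i)) := by
    intro i
    rw [mp_mp]
    change mp n (id : X → X) ((ts (θ (e i))) ∘ₗ (e.coord i)) y = _
    rw [h4]
    rfl
  rw [h4, Finset.sum_congr rfl (fun i _ => h5 i), Finset.sum_comm]
  apply Finset.sum_congr rfl
  intro x hx
  rw [← h1 x hx (y x) rfl]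
  exact map_sum (Finsupp.lsingle (R := ℚ) x) _ _

variable {G Q : Type} [Group G] [Group Q] {π : G →* Q} {K : Subgroup G} [K.Normal]
  {M : Type} [AddCommGroup M] [Module ℚ M]

/-- The vectors that vanish in the coinvariants. -/
def Iv (ρ : Representation ℚ Q M) : Submodule ℚ M :=
  Submodule.span ℚ {w | ∃ (g : Q) (m : M), w = ρ g m - m}

/-- Conjugation on the normal subgroup. -/
def cj (K : Subgroup G) [K.Normal] (h : G) : K →* K := (MulAut.conjNormal h : K ≃* K).toMonoidHom

theorem cj_coe (h : G) (k : K) : (cj K h k : G) = h * k * h⁻¹ :=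
  MulAut.conjNormal_apply h k

theorem bdl (hπ : Function.Surjective π) (hK : ∀ g, g ∈ K ↔ π g = 1)
    (ρ : Representation ℚ Q M) {n : ℕ} {b : T n K ℚ} (hb : Cyc (tQ K) n b)
    (hconj : ∀ h : G, mp n (cj K h) LinearMap.id b - b ∈ LinearMap.range (dd (tQ K) n))
    {m : M} (hm : m ∈ Iv ρ) :
    mp n K.subtype (ts m) b ∈ LinearMap.range (dd (ρ.comp π) n) := by
  have hts : ∀ (m : M) (g : K) (r : ℚ), ts m (tQ K g r) = (ρ.comp π) (K.subtype g) (ts m r) := by
    intro m g r
    change ts m r = ρ (π g) (ts m r)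
    rw [(hK _).mp g.2, map_one]
    rfl
  unfold Iv at hm
  induction hm using Submodule.span_induction with
  | mem w hw =>
    obtain ⟨g, m', rfl⟩ := hw
    obtain ⟨h, rfl⟩ := hπ g
    have h1 := plain (ρ := tQ K) (τ := ρ.comp π) K.subtype (ts m') (hts m') h⁻¹ n b hb
    have h2 : mp n (fun x => (h⁻¹)⁻¹ * K.subtype x * h⁻¹)
        ((ρ.comp π) (h⁻¹)⁻¹ ∘ₗ ts m') b =
        mp n K.subtype (ts (ρ (π h) m')) (mp n (cj K h) LinearMap.id b) := by
      rw [mp_mp]
      congr 2
      · funext x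
        simp only [inv_inv, Function.comp_apply, Subgroup.subtype_apply, cj_coe]
      · apply LinearMap.ext
        intro r
        rw [LinearMap.comp_apply, LinearMap.comp_apply, ts_apply, ts_apply, map_smul, inv_inv]
        rfl
    rw [h2] at h1
    have h3 := range_mp (ρ := tQ K) (τ := ρ.comp π) K.subtype (ts (ρ (π h) m'))
      (hts _) n _ (hconj h)
    rw [map_sub] at h3
    have h4 := Submodule.sub_mem _ h1 h3
    rw [ts_sub, mp_coef_sub]
    convert h4 using 1
    abel
  | zero =>
    rw [ts_zero, mp_coef_zero]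
    exact Submodule.zero_mem _
  | add x y _ _ hx hy =>
    rw [ts_add, mp_coef_add]
    exact Submodule.add_mem _ hx hy
  | smul c x _ hx =>
    rw [ts_smul, mp_coef_smul]
    exact Submodule.smul_mem _ _ hx

/-- The rational homology of `K` is detected by the restrictions of the homomorphisms of `G` with
the property `P`. -/
def DetB (K : Subgroup G) (P : ∀ (A : Type) [Group A], (G →* A) → Prop) : Prop :=
  ∀ (n : ℕ) (b : T n K ℚ), Cyc (tQ K) n b → (∀ (A : Type) [Group A] (φ : G →* A), P A φ →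
    mp n (φ.comp K.subtype) LinearMap.id b ∈ LinearMap.range (dd (tQ A) n)) →
      b ∈ LinearMap.range (dd (tQ K) n)

variable {P : ∀ (A : Type) [Group A], (G →* A) → Prop}

theorem DetB.conj (h : DetB K P) {n : ℕ} {b : T n K ℚ} (hb : Cyc (tQ K) n b) (g : G) :
    mp n (cj K g) LinearMap.id b - b ∈ LinearMap.range (dd (tQ K) n) := by
  apply h n
  · refine cyc_sub ?_ hb
    exact cyc_mp (ρ := tQ K) (τ := tQ K) (cj K g) LinearMap.id (fun _ _ => rfl) n b hb
  · intro A _ φ hφ
    rw [map_sub, mp_mp]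
    have h1 := plain (ρ := tQ K) (τ := tQ A) (φ.comp K.subtype) (LinearMap.id : ℚ →ₗ[ℚ] ℚ)
      (fun _ _ => rfl) (φ g)⁻¹ n b hb
    have e : (φ.comp K.subtype) ∘ (cj K g) =
        fun x => ((φ g)⁻¹)⁻¹ * (φ.comp K.subtype) x * (φ g)⁻¹ := by
      funext x
      simp only [Function.comp_apply, MonoidHom.comp_apply, Subgroup.subtype_apply, cj_coe,
        map_mul, map_inv, inv_inv]
    rw [e]
    exact h1

/-- A cycle of `K` that dies in all the groups `A × Q` dies in `G`. -/
theorem second (hπ : Function.Surjective π) (hK : ∀ g, g ∈ K ↔ π g = 1) (hdet : DetB K P)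
    (ρ : Representation ℚ Q M) (n : ℕ) (y : T n K M) (hy : Cyc (trivR K M) n y)
    (h : ∀ (A : Type) [Group A] (φ : G →* A), P A φ →
      mp n (φ.prod π) LinearMap.id (mp n K.subtype LinearMap.id y) ∈
        LinearMap.range (dd (ρ.comp (MonoidHom.snd A Q)) n)) :
    mp n K.subtype LinearMap.id y ∈ LinearMap.range (dd (ρ.comp π) n) := by
  -- invariant functionals
  have hfun : ∀ (lam : M →ₗ[ℚ] ℚ), (∀ g m, lam (ρ g m) = lam m) →
      mp n id lam y ∈ LinearMap.range (dd (tQ K) n) := by
    intro lam hlam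
    apply hdet n
    · exact cyc_mp (ρ := trivR K M) (τ := tQ K) (MonoidHom.id K) lam (fun _ _ => rfl) n y hy
    · intro A _ φ hφ
      have h1 := range_mp (ρ := ρ.comp (MonoidHom.snd A Q)) (τ := tQ A) (MonoidHom.fst A Q) lam
        (fun g m => hlam g.2 m) n _ (h A φ hφ)
      rw [mp_mp, mp_mp] at h1
      rw [mp_mp]
      exact h1
  -- a complement of the vectors that vanish in the coinvariants
  obtain ⟨s, hs⟩ := LinearMap.exists_rightInverse_of_surjective (Iv ρ).mkQ
    (LinearMap.range_eq_top.mpr (Submodule.mkQ_surjective _))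
  have hs' : ∀ v, (Iv ρ).mkQ (s v) = v := fun v => DFunLike.congr_fun hs v
  have hsplit : y = mp n id (LinearMap.id - s ∘ₗ (Iv ρ).mkQ) y +
      mp n id s (mp n id (Iv ρ).mkQ y) := by
    rw [mp_coef_sub, mp_id, mp_mp]
    change y = y - mp n id (s ∘ₗ (Iv ρ).mkQ) y + mp n id (s ∘ₗ (Iv ρ).mkQ) y
    rw [sub_add_cancel]
  have hA : mp n id s (mp n id (Iv ρ).mkQ y) ∈ LinearMap.range (dd (trivR K M) n) := by
    obtain ⟨F, hF⟩ := decomp (Module.Basis.ofVectorSpace ℚ (M ⧸ Iv ρ)) s (mp n id (Iv ρ).mkQ y)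
    rw [hF]
    apply Submodule.sum_mem
    intro i _
    have e1 : mp n (id : K → K) ((Module.Basis.ofVectorSpace ℚ (M ⧸ Iv ρ)).coord i)
        (mp n id (Iv ρ).mkQ y) = mp n id
          (((Module.Basis.ofVectorSpace ℚ (M ⧸ Iv ρ)).coord i) ∘ₗ (Iv ρ).mkQ) y :=
      mp_mp n id (Iv ρ).mkQ id _ y
    rw [e1]
    refine range_mp (ρ := tQ K) (τ := trivR K M) (MonoidHom.id K) (ts _) (fun _ _ => rfl) n _ ?_
    apply hfun
    intro g m
    rw [LinearMap.comp_apply, LinearMap.comp_apply]
    congr 1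
    rw [← sub_eq_zero, ← map_sub, Submodule.mkQ_apply, Submodule.Quotient.mk_eq_zero]
    exact Submodule.subset_span ⟨g, m, rfl⟩
  have hB : mp n K.subtype LinearMap.id (mp n id (LinearMap.id - s ∘ₗ (Iv ρ).mkQ) y) ∈
      LinearMap.range (dd (ρ.comp π) n) := by
    obtain ⟨F, hF⟩ := decomp (Module.Basis.ofVectorSpace ℚ M)
      (LinearMap.id - s ∘ₗ (Iv ρ).mkQ) y
    rw [hF, map_sum]
    apply Submodule.sum_mem
    intro i _
    rw [mp_mp]
    have hcy : Cyc (tQ K) n (mp n id ((Module.Basis.ofVectorSpace ℚ M).coord i) y) :=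
      cyc_mp (ρ := trivR K M) (τ := tQ K) (MonoidHom.id K) _ (fun _ _ => rfl) n y hy
    refine bdl hπ hK ρ hcy (fun g => hdet.conj hcy g) ?_
    rw [← Submodule.Quotient.mk_eq_zero, ← Submodule.mkQ_apply, LinearMap.sub_apply, map_sub,
      LinearMap.comp_apply, hs', LinearMap.id_apply, sub_self]
  rw [hsplit, map_add]
  refine Submodule.add_mem _ hB ?_
  exact range_mp (ρ := trivR K M) (τ := ρ.comp π) K.subtype LinearMap.id (fun g m => by
    change m = ρ (π g) m
    rw [(hK _).mp g.2, map_one]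
    rfl) n _ hA

end

end Run7.h16.LH
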