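import Pool.Agent.Run7.h16.LH.Coef

/-!
The rational homology of an extension whose kernel is detected by homomorphisms of the group
-/

set_option linter.unusedSectionVars false
set_option linter.unusedVariables false

namespace Run7.h16.LH

open Finsupp Pool.Agent.Y483

noncomputable section

variable {G Q : Type} [Group G] [Group Q] {π : G →* Q} {K : Subgroup G} [K.Normal]
  {P : ∀ (A : Type) [Group A], (G →* A) → Prop}

theorem aug_lift {X : Type*} {M : Type} [AddCommGroup M] [Module ℚ M] (k : ℕ) (y : T k X M) :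
    mp k id (augM Q M) (mp k id (lsingle (1 : Q)) y) = y := by
  rw [mp_mp]
  have e1 : (augM Q M) ∘ₗ (lsingle (1 : Q)) = LinearMap.id := by
    apply LinearMap.ext
    intro m
    exact augM_single 1 m
  rw [e1]
  exact mp_id _ _

theorem dd_aug {H : Type} [Group H] (p : H →* Q) {M : Type} [AddCommGroup M] [Module ℚ M]
    (ρ : Representation ℚ Q M) (k : ℕ) (y : T (k + 1) H (Q →₀ M)) :
    dd (ρ.comp p) k (mp (k + 1) id (augM Q M) y) =
      mp k id (augM Q M) (dd ((indRep ρ).comp p) k y) :=
  dd_mp (ρ := (indRep ρ).comp p) (τ := ρ.comp p) (MonoidHom.id _) (augM Q M)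
    (fun g m => augM_ind ρ (p g) m) k y

theorem dd_sub {H : Type} [Group H] (p : H →* Q) {M : Type} [AddCommGroup M] [Module ℚ M]
    (ρ : Representation ℚ Q M) (k : ℕ) (y : T (k + 1) H (Ker Q M)) :
    dd ((indRep ρ).comp p) k (mp (k + 1) id (Ker Q M).subtype y) =
      mp k id (Ker Q M).subtype (dd ((kerRep ρ).comp p) k y) :=
  dd_mp (ρ := (kerRep ρ).comp p) (τ := (indRep ρ).comp p) (MonoidHom.id _)
    (Ker Q M).subtype (fun g m => rfl) k y

theorem sub_inj {M : Type} [AddCommGroup M] [Module ℚ M] (k : ℕ) (X : Type) :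
    Function.Injective (mp (X := X) k id (Ker Q M).subtype) :=
  mp_injective k Function.injective_id (Submodule.subtype_injective _)

theorem lh (hπ : Function.Surjective π) (hK : ∀ g, g ∈ K ↔ π g = 1) (hdet : DetB K P) (n : ℕ) :
    ∀ (M : Type) [AddCommGroup M] [Module ℚ M] (ρ : Representation ℚ Q M) (z : T n G M),
    Cyc (ρ.comp π) n z → (∀ (A : Type) [Group A] (φ : G →* A), P A φ →
      mp n (φ.prod π) LinearMap.id z ∈ LinearMap.range (dd (ρ.comp (MonoidHom.snd A Q)) n)) →
    z ∈ LinearMap.range (dd (ρ.comp π) n) := by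
  induction n with
  | zero =>
    intro M _ _ ρ z _ h
    have e1 : mp 0 K.subtype LinearMap.id (mp 0 (fun _ => (1 : K)) LinearMap.id z) = z := by
      rw [mp_mp]
      have e2 : mp 0 (K.subtype ∘ fun _ : G => (1 : K))
          ((LinearMap.id : M →ₗ[ℚ] M) ∘ₗ (LinearMap.id : M →ₗ[ℚ] M)) =
            (LinearMap.id : T 0 G M →ₗ[ℚ] _) := by
        apply T_ext
        intro x m
        rw [mp_single]
        change single _ m = single _ m
        congr 1
        funext i
        exact i.elim0
      rw [e2]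
      rfl
    have h1 := second hπ hK hdet ρ 0 (mp 0 (fun _ => (1 : K)) LinearMap.id z) (Cyc.zero _ _)
      (fun A _ φ hφ => by rw [e1]; exact h A φ hφ)
    rwa [e1] at h1
  | succ n ih =>
    intro M _ _ ρ z hz h
    have hz0 := hz
    rw [cyc_succ] at hz
    -- the lift of the cycle
    set zt : T (n + 1) G (Q →₀ M) := mp (n + 1) id (lsingle (1 : Q)) z with hzt
    set kt := dd ((indRep ρ).comp π) n zt with hkt
    have hkt0 : mp n id (augM Q M) kt = 0 := by
      rw [hkt, ← dd_aug, hzt, aug_lift, hz]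
    set k := mp n id (retr Q M) kt with hk
    have hιk : mp n id (Ker Q M).subtype k = kt := lift_ker n kt hkt0
    have hkcyc : Cyc ((kerRep ρ).comp π) n k := by
      cases n with
      | zero => exact Cyc.zero _ _
      | succ n =>
        rw [cyc_succ]
        apply sub_inj n G
        rw [← dd_sub, hιk, hkt, dd_dd, map_zero]
    -- the images of `k` bound
    have hkA : ∀ (A : Type) [Group A] (φ : G →* A), P A φ →
        mp n (φ.prod π) LinearMap.id k ∈
          LinearMap.range (dd ((kerRep ρ).comp (MonoidHom.snd A Q)) n) := by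
      intro A _ φ hφ
      obtain ⟨v, hv⟩ := h A φ hφ
      set y := mp (n + 1) (φ.prod π) LinearMap.id zt -
        dd ((indRep ρ).comp (MonoidHom.snd A Q)) (n + 1) (mp (n + 2) id (lsingle (1 : Q)) v)
        with hy
      have hy0 : mp (n + 1) id (augM Q M) y = 0 := by
        have e1 : mp (n + 1) id (augM Q M) (dd ((indRep ρ).comp (MonoidHom.snd A Q)) (n + 1)
            (mp (n + 2) id (lsingle (1 : Q)) v)) =
              dd (ρ.comp (MonoidHom.snd A Q)) (n + 1) v := by
          rw [← dd_aug, aug_lift]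
        have e2 : mp (n + 1) id (augM Q M) (mp (n + 1) (φ.prod π) LinearMap.id zt) =
            mp (n + 1) (φ.prod π) LinearMap.id z := by
          rw [mp_mp, hzt, mp_mp]
          congr 2
          apply LinearMap.ext
          intro m
          exact augM_single 1 m
        rw [hy, map_sub, e1, e2, hv, sub_self]
      refine ⟨mp (n + 1) id (retr Q M) y, ?_⟩
      apply sub_inj n (A × Q)
      rw [← dd_sub, lift_ker (n + 1) y hy0, hy, map_sub, dd_dd, sub_zero]
      have e4 : dd ((indRep ρ).comp (MonoidHom.snd A Q)) n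
          (mp (n + 1) (φ.prod π) LinearMap.id zt) = mp n (φ.prod π) LinearMap.id kt :=
        dd_mp (ρ := (indRep ρ).comp π) (τ := (indRep ρ).comp (MonoidHom.snd A Q))
          (φ.prod π) LinearMap.id (fun g m => rfl) n zt
      have e5 : ∀ k' : T n G (Ker Q M),
          mp n (φ.prod π) LinearMap.id (mp n id (Ker Q M).subtype k') =
          mp n id (Ker Q M).subtype (mp n (φ.prod π) LinearMap.id k') := by
        intro k'
        rw [mp_mp, mp_mp]
        rfl
      rw [e4, ← hιk, e5]
    obtain ⟨s, hs⟩ := ih (Ker Q M) (kerRep ρ) k hkcyc hkA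
    -- a cycle with coefficients in `ℚ[Q] ⊗ M` lifting `z`
    set zz := zt - mp (n + 1) id (Ker Q M).subtype s with hzz
    have hzzcyc : Cyc ((indRep ρ).comp π) (n + 1) zz := by
      rw [cyc_succ, hzz, map_sub, ← hkt, dd_sub, hs, hιk, sub_self]
    have hzzaug : mp (n + 1) id (augM Q M) zz = z := by
      rw [hzz, map_sub, hzt, aug_lift, mp_mp]
      have e1 : (augM Q M) ∘ₗ (Ker Q M).subtype = 0 := by
        apply LinearMap.ext
        intro p
        exact LinearMap.mem_ker.mp p.2
      rw [e1, mp_coef_zero, sub_zero]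
    obtain ⟨y, hy, hyz⟩ := shap π K hπ hK ρ (n + 1) zz hzzcyc
    have h1 := range_mp (ρ := (indRep ρ).comp π) (τ := ρ.comp π) (MonoidHom.id _) (augM Q M)
      (fun g m => augM_ind ρ (π g) m) (n + 1) _ hyz
    rw [map_sub] at h1
    have e1 : mp (n + 1) (MonoidHom.id G) (augM Q M) zz = z := hzzaug
    have e2 : mp (n + 1) (MonoidHom.id G) (augM Q M)
        (mp (n + 1) K.subtype (lsingle (1 : Q)) y) = mp (n + 1) K.subtype LinearMap.id y := by
      rw [mp_mp]
      congr 2
      apply LinearMap.ext
      intro m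
      exact augM_single 1 m
    rw [e1, e2] at h1
    have h2 := second hπ hK hdet ρ (n + 1) y hy (fun A _ φ hφ => by
      have h3 := range_mp (ρ := ρ.comp π) (τ := ρ.comp (MonoidHom.snd A Q)) (φ.prod π)
        LinearMap.id (fun g m => rfl) (n + 1) _ h1
      rw [map_sub] at h3
      have h4 := Submodule.sub_mem _ (h A φ hφ) h3
      rwa [sub_sub_cancel] at h4)
    have h3 := Submodule.add_mem _ h1 h2
    rwa [sub_add_cancel] at h3

/-- The rational homology of `G` is detected by the groups `A × Q`. -/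
theorem lh_hq (hπ : Function.Surjective π) (hK : ∀ g, g ∈ K ↔ π g = 1)
    (hdet : ∀ (j : ℕ) (x : HQ j K), (∀ (A : Type) [Group A] (φ : G →* A), P A φ →
      hqMap (φ.comp K.subtype) j x = 0) → x = 0) (j : ℕ) (x : HQ j G)
    (h : ∀ (A : Type) [Group A] (φ : G →* A), P A φ → hqMap (φ.prod π) j x = 0) : x = 0 := by
  have hdet' : DetB K P := by
    intro n b hb hP
    obtain ⟨c, hc⟩ := exists_class (A := Rep.trivial ℚ K ℚ) n b hb
    have h1 : c = 0 := hdet n c (fun A _ φ hφ => by
      rw [(hc.hq (φ.comp K.subtype)).eq_zero_iff]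
      exact hP A φ hφ)
    exact hc.eq_zero_iff.mp h1
  obtain ⟨z, hz⟩ := exists_rpr (Rep.trivial ℚ G ℚ) j x
  rw [hz.eq_zero_iff]
  exact lh hπ hK hdet' j ℚ (tQ Q) z hz.cyc (fun A _ φ hφ => by
    have h1 := (hz.hq (φ.prod π)).eq_zero_iff.mp (h A φ hφ)
    exact h1)

end

end Run7.h16.LH
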