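import Pool.Agent.Y483.Semi
import Pool.Agent.Y483.Main

/-!
Chains of a group with coefficients in a module induced from a normal subgroup
-/

set_option linter.unusedSectionVars false
set_option linter.unusedVariables false

namespace Run7.h16.LH

open Finsupp Pool.Agent.Y483

noncomputable section

theorem mp_coef_sub {n : ℕ} {X Y M N : Type*} [AddCommGroup M] [Module ℚ M] [AddCommGroup N]
    [Module ℚ N] (f : X → Y) (φ ψ : M →ₗ[ℚ] N) (z : T n X M) :
    mp n f (φ - ψ) z = mp n f φ z - mp n f ψ z := by
  have h : mp n f (φ - ψ) = mp n f φ - mp n f ψ := by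
    apply T_ext
    intro x m
    rw [LinearMap.sub_apply, mp_single, mp_single, mp_single, LinearMap.sub_apply, single_sub]
  rw [h, LinearMap.sub_apply]

theorem mp_coef_add {n : ℕ} {X Y M N : Type*} [AddCommGroup M] [Module ℚ M] [AddCommGroup N]
    [Module ℚ N] (f : X → Y) (φ ψ : M →ₗ[ℚ] N) (z : T n X M) :
    mp n f (φ + ψ) z = mp n f φ z + mp n f ψ z := by
  have h : mp n f (φ + ψ) = mp n f φ + mp n f ψ := by
    apply T_ext
    intro x m
    rw [LinearMap.add_apply, mp_single, mp_single, mp_single, LinearMap.add_apply, single_add]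
  rw [h, LinearMap.add_apply]

theorem mp_coef_smul {n : ℕ} {X Y M N : Type*} [AddCommGroup M] [Module ℚ M] [AddCommGroup N]
    [Module ℚ N] (f : X → Y) (c : ℚ) (φ : M →ₗ[ℚ] N) (z : T n X M) :
    mp n f (c • φ) z = c • mp n f φ z := by
  have h : mp n f (c • φ) = c • mp n f φ := by
    apply T_ext
    intro x m
    rw [LinearMap.smul_apply, mp_single, mp_single, LinearMap.smul_apply, smul_single]
  rw [h, LinearMap.smul_apply]

theorem mp_coef_zero {n : ℕ} {X Y M N : Type*} [AddCommGroup M] [Module ℚ M] [AddCommGroup N]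
    [Module ℚ N] (f : X → Y) (z : T n X M) : mp n f (0 : M →ₗ[ℚ] N) z = 0 := by
  have h : mp n f (0 : M →ₗ[ℚ] N) = 0 := by
    apply T_ext
    intro x m
    rw [mp_single, LinearMap.zero_apply, single_zero, LinearMap.zero_apply]
  rw [h, LinearMap.zero_apply]

theorem cyc_sub {G M : Type*} [Group G] [AddCommGroup M] [Module ℚ M] {ρ : Representation ℚ G M}
    {n : ℕ} {y z : T n G M} (hy : Cyc ρ n y) (hz : Cyc ρ n z) : Cyc ρ n (y - z) := by
  cases n with
  | zero => exact Cyc.zero _ _
  | succ n => rw [cyc_succ] at *; rw [map_sub, hy, hz, sub_zero]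

theorem cyc_of_range {G M : Type*} [Group G] [AddCommGroup M] [Module ℚ M]
    {ρ : Representation ℚ G M} {n : ℕ} {z : T n G M} (hz : z ∈ LinearMap.range (dd ρ n)) :
    Cyc ρ n z := by
  obtain ⟨y, rfl⟩ := hz
  exact cyc_dd ρ n y

variable {G Q : Type} [Group G] [Group Q] (π : G →* Q) (K : Subgroup G)
  {M : Type} [AddCommGroup M] [Module ℚ M]

/-- A cycle with coefficients in `ℚ[Q] ⊗ M` comes from the kernel of `G → Q`. -/
theorem shap (hπ : Function.Surjective π) (hK : ∀ g, g ∈ K ↔ π g = 1)
    (ρ : Representation ℚ Q M) (q : ℕ) (z : T q G (Q →₀ M))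
    (hz : Cyc ((indRep ρ).comp π) q z) :
    ∃ y : T q K M, Cyc (trivR K M) q y ∧
      z - mp q K.subtype (lsingle (1 : Q)) y ∈ LinearMap.range (dd ((indRep ρ).comp π) q) := by
  classical
  choose t ht using hπ
  let F : Q → G → G := fun a h => h * t ((π h)⁻¹ * a)
  have hF : ∀ a h, π (F a h) = a := by
    intro a h
    simp only [F, map_mul, ht, mul_inv_cancel_left]
  have hFeq : ∀ g a h, F (π g * a) (g * h) = g * F a h := by
    intro g a h
    simp only [F, map_mul, mul_inv_rev, mul_assoc, inv_mul_cancel_left]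
  let κ : G → K := fun h => if hh : h ∈ K then ⟨h, hh⟩ else 1
  have hκ : ∀ h, h ∈ K → (κ h : G) = h := by
    intro h hh
    simp only [κ, dif_pos hh]
  let Y : T q G (Q →₀ M) →ₗ[ℚ] T q K M := lsum ℚ fun w => lsum ℚ fun a =>
    (lsingle (fun j : Fin q => κ ((F a (Fin.partialProd w j.castSucc))⁻¹ *
      F a (Fin.partialProd w j.succ)))) ∘ₗ (ρ a⁻¹)
  have hind : ∀ (g : G) (a : Q) (m : M), ((indRep ρ).comp π) g (single a m) =
      single (π g * a) (ρ (π g) m) := fun g a m => indRep_single ρ (π g) a m
  have h := family (G := G) (H := G) (τ := (indRep ρ).comp π) ((indRep ρ).comp π)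
    (fun g a => π g * a) (fun g => ρ (π g)) (fun g a m => hind g a m) (MonoidHom.id G)
    (fun a h => F a h) (fun _ h => h) (fun a => lsingle a)
    (fun g a x => hFeq g a x) (fun g a x => rfl)
    (fun g a m => (hind g a m).symm) q z hz
  have e : pp ((indRep ρ).comp π) q (comb (q + 1)
      (fun a => mp (q + 1) (fun h : G => h) (lsingle a)) (sg q z)) = z := by
    have e1 : comb (q + 1) (fun a : Q => mp (M := M) (q + 1) (fun h : G => h) (lsingle a)) =
        LinearMap.id := by
      apply TI_ext
      intro x a m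
      rw [comb_single, mp_single]
      rfl
    rw [e1, LinearMap.id_apply, pp_sg]
  have e2 : pp ((indRep ρ).comp π) q (comb (q + 1)
      (fun a => mp (q + 1) (fun h : G => F a h) (lsingle a)) (sg q z)) =
        mp q K.subtype (lsingle (1 : Q)) (Y z) := by
    have h2 : (pp ((indRep ρ).comp π) q) ∘ₗ (comb (q + 1)
      (fun a => mp (q + 1) (fun h : G => F a h) (lsingle a))) ∘ₗ (sg q) =
        (mp q K.subtype (lsingle (1 : Q))) ∘ₗ Y := by
      apply TI_ext
      intro w a r
      have e3 : Y (single w (single a r)) = single (fun j : Fin q =>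
          κ ((F a (Fin.partialProd w j.castSucc))⁻¹ * F a (Fin.partialProd w j.succ)))
          (ρ a⁻¹ r) := by
        simp only [Y]
        rw [Finsupp.lsum_single, Finsupp.lsum_single]
        rfl
      rw [LinearMap.comp_apply, LinearMap.comp_apply, LinearMap.comp_apply, sg_single, comb_single,
        mp_single, pp_single, e3, mp_single, lsingle_apply, lsingle_apply, hind]
      have e4 : π (((fun h : G => F a h) ∘ Fin.partialProd w) 0)⁻¹ = a⁻¹ := by
        rw [map_inv]
        exact congrArg _ (hF a _)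
      rw [e4, inv_mul_cancel]
      congr 1
      funext j
      simp only [Function.comp_apply]
      rw [Subgroup.subtype_apply, hκ]
      rw [hK, map_mul, map_inv, hF, hF, inv_mul_cancel]
    exact DFunLike.congr_fun h2 z
  rw [e, e2] at h
  refine ⟨Y z, ?_, h⟩
  cases q with
  | zero => exact Cyc.zero _ _
  | succ q =>
    rw [cyc_succ] at *
    apply mp_injective (M := M) (N := Q →₀ M) q (Subgroup.subtype_injective K)
      (φ := lsingle (1 : Q)) (Finsupp.single_injective (1 : Q))
    rw [← dd_mp (ρ := trivR K M) (τ := (indRep ρ).comp π) K.subtype (lsingle (1 : Q))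
      (fun g m => by
        rw [lsingle_apply, lsingle_apply, hind, Subgroup.subtype_apply, (hK _).mp g.2, map_one,
          mul_one]
        rfl), map_zero]
    obtain ⟨v, hv⟩ := h
    have h3 : mp (q + 1) K.subtype (lsingle (1 : Q)) (Y z) =
        z - dd ((indRep ρ).comp π) (q + 1) v := by
      rw [hv, sub_sub_cancel]
    rw [h3, map_sub, hz, dd_dd, sub_self]

end

end Run7.h16.LH
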